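import Pool.Agent.Y465.SZ.Sq

/-!
Job SZ-SQA (helper657): a decoration without configurations of types A, C
-/

set_option autoImplicit false
set_option linter.unusedSectionVars false

namespace Pool.Agent.Y657.SZ

open Pool.Agent.Y465.SZ

section comb

variable {E : Type} [DecidableEq E]

/-- the forest case of the choice -/
lemma pick2 (S : Finset E) (c : E → Bool) (Bad : E → E → Bool → Bool → Prop)
    (hk : ∀ e ∈ S, ∀ f ∈ S, ∃ k : Bool, ∀ x y : Bool, (y ^^ x) = k → Bad e f x y) (t : E → Bool)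
    {a b p q : E} (ha : a ∈ S) (hb : b ∈ S) (hp : p ∈ S) (hq : q ∈ S) (ca : c a = true)
    (cb : c b = true) (cp : c p = false) (cq : c q = false) (hab : a ≠ b) (hpq : p ≠ q)
    (hS : ∀ e ∈ S, e = a ∨ e = b ∨ e = p ∨ e = q) (hbq : ∀ x y, Bad b q x y) :
    ∃ t' : E → Bool, (∀ e, e ∉ S → t' e = t e) ∧
      ∀ e ∈ S, ∀ f ∈ S, c e = true → c f = false → Bad e f (t' e) (t' f) := by
  obtain ⟨k1, h1⟩ := hk a ha p hp
  obtain ⟨k2, h2⟩ := hk a ha q hq
  obtain ⟨k3, h3⟩ := hk b hb p hp
  have hap : a ≠ p := fun h => by rw [h, cp] at ca; exact absurd ca (by decide)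
  have haq : a ≠ q := fun h => by rw [h, cq] at ca; exact absurd ca (by decide)
  have hbp : b ≠ p := fun h => by rw [h, cp] at cb; exact absurd cb (by decide)
  have hbq' : b ≠ q := fun h => by rw [h, cq] at cb; exact absurd cb (by decide)
  obtain ⟨T, hT⟩ : ∃ T : E → Bool, T = fun e => if e = p then (t a ^^ k1) else if e = q then
    (t a ^^ k2) else if e = b then ((t a ^^ k1) ^^ k3) else t e := ⟨_, rfl⟩
  have Ta : T a = t a := by rw [hT]; simp [hap, haq, hab]
  have Tb : T b = ((t a ^^ k1) ^^ k3) := by rw [hT]; simp [hbp, hbq']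
  have Tp : T p = (t a ^^ k1) := by rw [hT]; simp
  have Tq : T q = (t a ^^ k2) := by rw [hT]; simp [hpq.symm]
  refine ⟨T, ?_, ?_⟩
  · intro e he
    have e1 : e ≠ p := fun h => he (h ▸ hp)
    have e2 : e ≠ q := fun h => he (h ▸ hq)
    have e3 : e ≠ b := fun h => he (h ▸ hb)
    rw [hT]
    simp [e1, e2, e3]
  · intro e he f hf ce cf
    have he' : e = a ∨ e = b := by
      rcases hS e he with h | h | h | h
      · exact Or.inl h
      · exact Or.inr h
      · rw [h, cp] at ce; exact absurd ce (by decide)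
      · rw [h, cq] at ce; exact absurd ce (by decide)
    have hf' : f = p ∨ f = q := by
      rcases hS f hf with h | h | h | h
      · rw [h, ca] at cf; exact absurd cf (by decide)
      · rw [h, cb] at cf; exact absurd cf (by decide)
      · exact Or.inl h
      · exact Or.inr h
    rcases he' with rfl | rfl <;> rcases hf' with rfl | rfl
    · apply h1
      rw [Ta, Tp]
      cases t e <;> cases k1 <;> rfl
    · apply h2
      rw [Ta, Tq]
      cases t e <;> cases k2 <;> rfl
    · apply h3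
      rw [Tb, Tp]
      cases t a <;> cases k1 <;> cases k3 <;> rfl
    · exact hbq _ _

lemma pick (S : Finset E) (c : E → Bool) (Bad : E → E → Bool → Bool → Prop)
    (hk : ∀ e ∈ S, ∀ f ∈ S, ∃ k : Bool, ∀ x y : Bool, (y ^^ x) = k → Bad e f x y)
    (hc : S.card ≤ 4)
    (hclaim : S.card = 4 → ∀ a b p q, a ∈ S → b ∈ S → p ∈ S → q ∈ S → c a = true → c b = true →
      c p = false → c q = false → a ≠ b → p ≠ q → (∀ e ∈ S, e = a ∨ e = b ∨ e = p ∨ e = q) →
      ((∀ x y, Bad a p x y) ∨ (∀ x y, Bad a q x y)) ∨ (∀ x y, Bad b p x y) ∨ ∀ x y, Bad b q x y)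
    (t : E → Bool) :
    ∃ t' : E → Bool, (∀ e, e ∉ S → t' e = t e) ∧
      ∀ e ∈ S, ∀ f ∈ S, c e = true → c f = false → Bad e f (t' e) (t' f) := by
  classical
  obtain ⟨S1, hS1⟩ : ∃ S1, S1 = S.filter fun e => c e = true := ⟨_, rfl⟩
  obtain ⟨S0, hS0⟩ : ∃ S0, S0 = S.filter fun e => ¬ c e = true := ⟨_, rfl⟩
  have m1 : ∀ e, e ∈ S1 ↔ e ∈ S ∧ c e = true := by intro e; rw [hS1, Finset.mem_filter]
  have m0 : ∀ e, e ∈ S0 ↔ e ∈ S ∧ c e = false := by
    intro e; rw [hS0, Finset.mem_filter, Bool.not_eq_true]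
  have hcard : S1.card + S0.card = S.card := by
    rw [hS1, hS0]
    exact Finset.card_filter_add_card_filter_not _
  choose! k hkk using hk
  rcases Nat.lt_or_ge S1.card 2 with h1 | h1
  · rcases Nat.eq_zero_or_pos S1.card with h0 | h0
    · refine ⟨t, fun _ _ => rfl, fun e he f _ ce _ => ?_⟩
      have : e ∈ S1 := (m1 e).2 ⟨he, ce⟩
      rw [Finset.card_eq_zero.1 h0] at this
      exact absurd this (Finset.notMem_empty _)
    · obtain ⟨a, ha⟩ := Finset.card_eq_one.1 (by omega : S1.card = 1)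
      have haS : a ∈ S ∧ c a = true := (m1 a).1 (by rw [ha]; exact Finset.mem_singleton_self _)
      refine ⟨fun e => if e ∈ S0 then (t a ^^ k a e) else t e, fun e he => ?_,
        fun e he f hf ce cf => ?_⟩
      · have : e ∉ S0 := fun h => he ((m0 e).1 h).1
        simp [this]
      · have h2 : e ∈ S1 := (m1 e).2 ⟨he, ce⟩
        rw [ha, Finset.mem_singleton] at h2
        subst h2
        have h3 : e ∉ S0 := fun h => by
          have := ((m0 e).1 h).2
          rw [ce] at this; exact absurd this (by decide)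
        have h4 : f ∈ S0 := (m0 f).2 ⟨hf, cf⟩
        apply hkk e he f hf
        simp only [h3, h4, if_true, if_false]
        cases t e <;> cases k e f <;> rfl
  · rcases Nat.lt_or_ge S0.card 2 with h2 | h2
    · rcases Nat.eq_zero_or_pos S0.card with h0 | h0
      · refine ⟨t, fun _ _ => rfl, fun e _ f hf _ cf => ?_⟩
        have : f ∈ S0 := (m0 f).2 ⟨hf, cf⟩
        rw [Finset.card_eq_zero.1 h0] at this
        exact absurd this (Finset.notMem_empty _)
      · obtain ⟨p, hp⟩ := Finset.card_eq_one.1 (by omega : S0.card = 1)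
        have hpS : p ∈ S ∧ c p = false :=
          (m0 p).1 (by rw [hp]; exact Finset.mem_singleton_self _)
        refine ⟨fun e => if e ∈ S1 then (t p ^^ k e p) else t e, fun e he => ?_,
          fun e he f hf ce cf => ?_⟩
        · have : e ∉ S1 := fun h => he ((m1 e).1 h).1
          simp [this]
        · have h5 : f ∈ S0 := (m0 f).2 ⟨hf, cf⟩
          rw [hp, Finset.mem_singleton] at h5
          subst h5
          have h3 : f ∉ S1 := fun h => by
            have := ((m1 f).1 h).2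
            rw [cf] at this; exact absurd this (by decide)
          have h4 : e ∈ S1 := (m1 e).2 ⟨he, ce⟩
          apply hkk e he f hf
          simp only [h3, h4, if_true, if_false]
          cases t f <;> cases k e f <;> rfl
    · obtain ⟨a, b, hab, hS1'⟩ := Finset.card_eq_two.1 (by omega : S1.card = 2)
      obtain ⟨p, q, hpq, hS0'⟩ := Finset.card_eq_two.1 (by omega : S0.card = 2)
      have ha := (m1 a).1 (by rw [hS1']; simp)
      have hb := (m1 b).1 (by rw [hS1']; simp)
      have hp := (m0 p).1 (by rw [hS0']; simp)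
      have hq := (m0 q).1 (by rw [hS0']; simp)
      have hS : ∀ e ∈ S, e = a ∨ e = b ∨ e = p ∨ e = q := by
        intro e he
        cases hce : c e
        · have h3 : e ∈ S0 := (m0 e).2 ⟨he, hce⟩
          rw [hS0', Finset.mem_insert, Finset.mem_singleton] at h3
          exact Or.inr (Or.inr h3)
        · have h3 : e ∈ S1 := (m1 e).2 ⟨he, hce⟩
          rw [hS1', Finset.mem_insert, Finset.mem_singleton] at h3
          rcases h3 with h3 | h3
          · exact Or.inl h3
          · exact Or.inr (Or.inl h3)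
      have hk' : ∀ e ∈ S, ∀ f ∈ S, ∃ k : Bool, ∀ x y : Bool, (y ^^ x) = k → Bad e f x y :=
        fun e he f hf => ⟨k e f, hkk e he f hf⟩
      rcases hclaim (by omega) a b p q ha.1 hb.1 hp.1 hq.1 ha.2 hb.2 hp.2 hq.2 hab hpq hS with
        (h | h) | h | h
      · exact pick2 S c Bad hk' t hb.1 ha.1 hq.1 hp.1 hb.2 ha.2 hq.2 hp.2 hab.symm hpq.symm
          (fun e he => by rcases hS e he with h | h | h | h <;> simp [h]) h
      · exact pick2 S c Bad hk' t hb.1 ha.1 hp.1 hq.1 hb.2 ha.2 hp.2 hq.2 hab.symm hpq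
          (fun e he => by rcases hS e he with h | h | h | h <;> simp [h]) h
      · exact pick2 S c Bad hk' t ha.1 hb.1 hq.1 hp.1 ha.2 hb.2 hq.2 hp.2 hab hpq.symm
          (fun e he => by rcases hS e he with h | h | h | h <;> simp [h]) h
      · exact pick2 S c Bad hk' t ha.1 hb.1 hp.1 hq.1 ha.2 hb.2 hp.2 hq.2 hab hpq hS h

end comb

variable {E : Type} [Fintype E] [DecidableEq E] {mate : E × Fin 4 → E × Fin 4}

lemma mem_tog_self (K : Finset E) (e : E) : e ∈ tog K e ↔ e ∉ K := by
  unfold tog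
  by_cases h : e ∈ K <;> simp [h]

lemma mem_tog_ne (K : Finset E) {e f : E} (h : f ≠ e) : f ∈ tog K e ↔ f ∈ K := by
  unfold tog
  by_cases h1 : e ∈ K <;> simp [h1, h]

lemma tog_tog (K : Finset E) (e : E) : tog (tog K e) e = K := by
  ext f
  by_cases h : f = e
  · rw [h, mem_tog_self, mem_tog_self, not_not]
  · rw [mem_tog_ne _ h, mem_tog_ne _ h]

lemma not_same (hO : Ori mate) {K : Finset E} {e : E} (he : Same mate K (e, 0) (e, 2)) :
    ¬ Same mate (tog K e) (e, 0) (e, 2) := fun h => (hO K e).1 h he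

/-- the two conditions of the type C for a pair of arcs -/
def Bd (mate : E × Fin 4 → E × Fin 4) (s : Bool) (K : Finset E) (e f : E) (x y : Bool) : Prop :=
  ¬ (Same mate (tog K e) (pt (f, y)) (pt (e, if s then x else !x)) ∧
    Same mate (tog K e) (pt (f, !y)) (pt (e, if s then !x else x)))

lemma bd_k (hO : Ori mate) (s : Bool) {K : Finset E} {e f : E}
    (he : Same mate K (e, 0) (e, 2)) : ∃ k : Bool, ∀ x y : Bool, (y ^^ x) = k →
      Bd mate s K e f x y := by
  have hn := not_same hO he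
  by_cases hpar : Same mate (tog K e) (f, 2) (e, 2) ∧ Same mate (tog K e) (f, 0) (e, 0)
  · refine ⟨s, fun x y hxy => ?_⟩
    rintro ⟨h1, h2⟩
    have k1 : Same mate (tog K e) (f, 2) (e, 0) → False := fun h => hn (h.symm.trans hpar.1)
    have k2 : Same mate (tog K e) (f, 0) (e, 2) → False := fun h => hn (hpar.2.symm.trans h)
    cases s <;> cases x <;> cases y <;> simp [pt] at hxy h1 h2 <;>
      first | exact k1 h1 | exact k1 h2 | exact k2 h1
  · refine ⟨!s, fun x y hxy => ?_⟩
    rintro ⟨h1, h2⟩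
    cases s <;> cases x <;> cases y <;> simp [pt] at hxy h1 h2 <;>
      first | exact hpar ⟨h1, h2⟩ | exact hpar ⟨h2, h1⟩

lemma bd_free (hO : Ori mate) (s : Bool) {K : Finset E} {e f : E}
    (he : Same mate K (e, 0) (e, 2)) (hf : Same mate (tog K e) (f, 0) (f, 2)) (x y : Bool) :
    Bd mate s K e f x y := by
  have hn := not_same hO he
  rintro ⟨h1, h2⟩
  have key : ∀ i j : Fin 4, ((i = 0 ∧ j = 2) ∨ (i = 2 ∧ j = 0)) →
      ¬ Same mate (tog K e) (e, i) (e, j) := by
    rintro i j (⟨rfl, rfl⟩ | ⟨rfl, rfl⟩) h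
    · exact hn h
    · exact hn h.symm
  have hf' := hf.symm
  cases s <;> cases x <;> cases y <;> simp [pt] at h1 h2 <;>
    first
    | exact key _ _ (by simp) ((h1.symm.trans hf).trans h2)
    | exact key _ _ (by simp) ((h1.symm.trans hf').trans h2)

lemma sep_ends (hO : Ori mate) (hJ : JOI mate) {K : Finset E} {a p : E}
    (ha : Same mate K (a, 0) (a, 2)) (hp : Same mate K (p, 0) (p, 2))
    (hi : ¬ Same mate (tog K a) (p, 0) (p, 2)) :
    ¬ (Same mate (tog K a) (a, 0) (p, 0) ↔ Same mate (tog K a) (a, 0) (p, 2)) := by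
  have hna := not_same hO ha
  obtain ⟨-, hj⟩ := hJ (tog K a) a hna
  rw [tog_tog] at hj
  intro hiff
  rcases (hj (p, 0) (p, 2)).1 hp with h | ⟨h1, h2⟩ | ⟨h1, h2⟩
  · exact hi h
  · exact hna ((hiff.1 h1.symm).trans h2)
  · exact hna ((hiff.2 h2.symm).trans h1)

lemma four {K : Finset E} {f : E × Fin 4 → Bool} (h : Inv mate K f) {e : E}
    (h02 : f (e, 0) = f (e, 2)) : f (e, 1) = f (e, 0) ∧ f (e, 3) = f (e, 0) := by
  by_cases he : e ∈ K
  · obtain ⟨a, b⟩ := h.slots_mem he
    exact ⟨a, b.trans h02.symm⟩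
  · obtain ⟨a, b⟩ := h.slots_not_mem he
    exact ⟨b.trans h02.symm, a⟩

lemma claim {col : E × Fin 4 → Bool} (hD : Dia mate col) (hO : Ori mate) (hJ : JOI mate)
    {K S : Finset E} (hKS : (∀ e ∈ S, e ∉ K) ∨ (∀ e ∈ S, e ∈ K))
    (hself : ∀ e ∈ S, Same mate K (e, 0) (e, 2)) {a b p q : E} (ha : a ∈ S) (hb : b ∈ S)
    (hp : p ∈ S) (hq : q ∈ S) (ca : col (a, 0) = true) (cb : col (b, 0) = true)
    (cp : col (p, 0) = false) (cq : col (q, 0) = false) (hab : a ≠ b)
    (hS : ∀ e ∈ S, e = a ∨ e = b ∨ e = p ∨ e = q)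
    (hfin : Same mate (symmDiff K S) (a, 0) (a, 2))
    (i1 : ¬ Same mate (tog K a) (p, 0) (p, 2)) (i2 : ¬ Same mate (tog K a) (q, 0) (q, 2))
    (i3 : ¬ Same mate (tog K b) (p, 0) (p, 2)) (i4 : ¬ Same mate (tog K b) (q, 0) (q, 2)) :
    False := by
  classical
  have hpa : p ≠ a := fun h => by rw [← h, cp] at ca; exact absurd ca (by decide)
  have hqa : q ≠ a := fun h => by rw [← h, cq] at ca; exact absurd ca (by decide)
  have hpb : p ≠ b := fun h => by rw [← h, cp] at cb; exact absurd cb (by decide)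
  have hqb : q ≠ b := fun h => by rw [← h, cq] at cb; exact absurd cb (by decide)
  have hdec : decide (a ∈ K) = decide (b ∈ K) := by
    rcases hKS with h | h
    · simp [h a ha, h b hb]
    · simp [h a ha, h b hb]
  have jab : Same mate (tog K a) (b, 0) (b, 2) := by
    by_contra h
    apply hD.pl K a b hab (hself a ha) (hself b hb) h
    rw [ca, cb, hdec]
  have jba : Same mate (tog K b) (a, 0) (a, 2) := by
    by_contra h
    apply hD.pl K b a hab.symm (hself b hb) (hself a ha) h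
    rw [ca, cb, hdec]
  have hu := inv_class (mate := mate) (tog K a) (a, 0)
  have hv := inv_class (mate := mate) (tog K b) (b, 0)
  obtain ⟨u, hud⟩ : ∃ u : E × Fin 4 → Bool,
    u = fun h' => decide (Same mate (tog K a) (a, 0) h') := ⟨_, rfl⟩
  obtain ⟨v, hvd⟩ : ∃ v : E × Fin 4 → Bool,
    v = fun h' => decide (Same mate (tog K b) (b, 0) h') := ⟨_, rfl⟩
  rw [← hud] at hu
  rw [← hvd] at hv
  have up : ∀ c ∈ S, ¬ Same mate (tog K a) (c, 0) (c, 2) → u (c, 0) ≠ u (c, 2) := by
    intro c hc hi h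
    apply sep_ends hO hJ (hself a ha) (hself c hc) hi
    rw [hud] at h
    simpa using h
  have vp : ∀ c ∈ S, ¬ Same mate (tog K b) (c, 0) (c, 2) → v (c, 0) ≠ v (c, 2) := by
    intro c hc hi h
    apply sep_ends hO hJ (hself b hb) (hself c hc) hi
    rw [hvd] at h
    simpa using h
  have va : v (a, 0) = v (a, 2) := jba v hv
  have ub : u (b, 0) = u (b, 2) := jab u hu
  have hsym : ∀ e, e ∈ symmDiff K S ↔ (e ∈ K ↔ e ∉ S) := by
    intro e
    rw [Finset.mem_symmDiff]
    tauto
  -- `g` is constant at `p` and `q`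
  have gc : ∀ c ∈ S, c ≠ a → c ≠ b → u (c, 0) ≠ u (c, 2) → v (c, 0) ≠ v (c, 2) →
      (u (c, 1) ^^ v (c, 1)) = (u (c, 0) ^^ v (c, 0)) ∧
      (u (c, 3) ^^ v (c, 3)) = (u (c, 2) ^^ v (c, 2)) ∧
      (u (c, 3) ^^ v (c, 3)) = (u (c, 0) ^^ v (c, 0)) ∧
      (u (c, 1) ^^ v (c, 1)) = (u (c, 2) ^^ v (c, 2)) := by
    intro c hc c1 c2 h1 h2
    have h3 : (u (c, 0) ^^ v (c, 0)) = (u (c, 2) ^^ v (c, 2)) := by
      revert h1 h2
      cases u (c, 0) <;> cases u (c, 2) <;> cases v (c, 0) <;> cases v (c, 2) <;> simp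
    by_cases hK : c ∈ K
    · obtain ⟨x1, x2⟩ := hu.slots_mem ((mem_tog_ne K c1).2 hK)
      obtain ⟨y1, y2⟩ := hv.slots_mem ((mem_tog_ne K c2).2 hK)
      rw [x1, x2, y1, y2, h3]
      simp
    · obtain ⟨x1, x2⟩ := hu.slots_not_mem (fun h => hK ((mem_tog_ne K c1).1 h))
      obtain ⟨y1, y2⟩ := hv.slots_not_mem (fun h => hK ((mem_tog_ne K c2).1 h))
      rw [x1, x2, y1, y2, h3]
      simp
  have hg : Inv mate (symmDiff K S) (fun h => (u h ^^ v h)) := by
    rw [inv_iff]
    refine ⟨fun h => by rw [hu.1 h, hv.1 h], fun e => ?_⟩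
    by_cases heS : e ∈ S
    · rcases hS e heS with he | he | he | he
      · subst he
        obtain ⟨y1, y2⟩ := four hv va
        constructor
        · intro h
          have h5 : e ∈ tog K e := by rw [mem_tog_self]; rw [hsym] at h; tauto
          obtain ⟨x1, x2⟩ := hu.slots_mem h5
          exact ⟨by rw [x1, y1], by rw [x2, y2, va]⟩
        · intro h
          have h5 : e ∉ tog K e := by rw [mem_tog_self]; rw [hsym] at h; tauto
          obtain ⟨x1, x2⟩ := hu.slots_not_mem h5
          exact ⟨by rw [x1, y2], by rw [x2, y1, va]⟩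
      · subst he
        obtain ⟨y1, y2⟩ := four hu ub
        constructor
        · intro h
          have h5 : e ∈ tog K e := by rw [mem_tog_self]; rw [hsym] at h; tauto
          obtain ⟨x1, x2⟩ := hv.slots_mem h5
          exact ⟨by rw [x1, y1], by rw [x2, y2, ub]⟩
        · intro h
          have h5 : e ∉ tog K e := by rw [mem_tog_self]; rw [hsym] at h; tauto
          obtain ⟨x1, x2⟩ := hv.slots_not_mem h5
          exact ⟨by rw [x1, y2], by rw [x2, y1, ub]⟩
      · subst he
        obtain ⟨z1, z2, z3, z4⟩ := gc e hp hpa hpb (up e hp i1) (vp e hp i3)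
        exact ⟨fun _ => ⟨z1, z2⟩, fun _ => ⟨z3, z4⟩⟩
      · subst he
        obtain ⟨z1, z2, z3, z4⟩ := gc e hq hqa hqb (up e hq i2) (vp e hq i4)
        exact ⟨fun _ => ⟨z1, z2⟩, fun _ => ⟨z3, z4⟩⟩
    · have n1 : e ≠ a := fun h => heS (h ▸ ha)
      have n2 : e ≠ b := fun h => heS (h ▸ hb)
      constructor
      · intro h
        have hK : e ∈ K := by rw [hsym] at h; tauto
        obtain ⟨x1, x2⟩ := hu.slots_mem ((mem_tog_ne K n1).2 hK)
        obtain ⟨y1, y2⟩ := hv.slots_mem ((mem_tog_ne K n2).2 hK)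
        exact ⟨by rw [x1, y1], by rw [x2, y2]⟩
      · intro h
        have hK : e ∉ K := by rw [hsym] at h; tauto
        obtain ⟨x1, x2⟩ := hu.slots_not_mem (fun h => hK ((mem_tog_ne K n1).1 h))
        obtain ⟨y1, y2⟩ := hv.slots_not_mem (fun h => hK ((mem_tog_ne K n2).1 h))
        exact ⟨by rw [x1, y1], by rw [x2, y2]⟩
  have h6 := hfin _ hg
  have ua0 : u (a, 0) = true := by
    rw [hud]
    exact decide_eq_true (Same.refl _ _)
  have ua2 : u (a, 2) = false := by
    rw [hud]
    exact decide_eq_false (not_same hO (hself a ha))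
  simp only [ua0, ua2, va] at h6
  revert h6
  cases v (a, 2) <;> simp

theorem t_SQA : S_SQA := by
  intro E _ _ mate col hD hO hJ s K S hKS hcard hself hfin t
  obtain ⟨t', ht1, ht2⟩ := pick S (fun e => col (e, 0)) (Bd mate s K)
    (fun e he f _ => bd_k hO s (hself e he)) hcard (by
      intro h4 a b p q ha hb hp hq ca cb cp cq hab _ hS
      by_contra hno
      push Not at hno
      obtain ⟨⟨⟨x1, y1, n1⟩, ⟨x2, y2, n2⟩⟩, ⟨x3, y3, n3⟩, ⟨x4, y4, n4⟩⟩ := hno
      exact claim hD hO hJ hKS hself ha hb hp hq ca cb cp cq hab hS (hfin h4 a ha)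
        (fun h => n1 (bd_free hO s (hself a ha) h x1 y1))
        (fun h => n2 (bd_free hO s (hself a ha) h x2 y2))
        (fun h => n3 (bd_free hO s (hself b hb) h x3 y3))
        (fun h => n4 (bd_free hO s (hself b hb) h x4 y4))) t
  refine ⟨t', ht1, ?_⟩
  rintro S' hS' ⟨g, hg⟩ (hA | hC)
  · apply hA.2 g hg
    have h1 := hself g (hS' hg)
    cases t' g
    · exact h1
    · exact h1.symm
  · obtain ⟨-, ⟨e, he, ce⟩, ⟨f, hf, cf⟩, hall⟩ := hC
    have h1 := hall e he f hf (by rw [ce, cf]; decide)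
    exact ht2 e (hS' he) f (hS' hf) ce cf h1

end Pool.Agent.Y657.SZ
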